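import Pool.Agent.N889.WU.Stm

/-!
Passing to the field generated by two elements (project WU, helper368).
-/

set_option autoImplicit false

open Polynomial IntermediateField

namespace Pool.Agent.N368.WU

universe u

theorem t_RED : Pool.Agent.N889.WU.S_RED.{u} := by
  intro k L _ _ _ t z w hsep
  obtain ⟨htr, hfd, hs⟩ := hsep
  obtain ⟨E, hE⟩ : ∃ E : IntermediateField k L, E = IntermediateField.adjoin k {t, z, w} := ⟨_, rfl⟩
  have ht : t ∈ E := by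
    rw [hE]
    exact subset_adjoin k _ (by simp)
  have hz : z ∈ E := by
    rw [hE]
    exact subset_adjoin k _ (by simp)
  have hw : w ∈ E := by
    rw [hE]
    exact subset_adjoin k _ (by simp)
  have hmap : IntermediateField.lift (k⟮(⟨t, ht⟩ : E)⟯) = k⟮t⟯ := lift_adjoin_simple k E ⟨t, ht⟩
  let e : ↥(k⟮(⟨t, ht⟩ : E)⟯) ≃+* ↥(k⟮t⟯) :=
    ((liftAlgEquiv (k⟮(⟨t, ht⟩ : E)⟯)).trans (equivOfEq hmap)).toRingEquiv
  let A₁ : Algebra ↥(k⟮(⟨t, ht⟩ : E)⟯) L := ((algebraMap E L).comp (algebraMap ↥(k⟮(⟨t, ht⟩ : E)⟯) E)).toAlgebra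
  have hst : IsScalarTower ↥(k⟮(⟨t, ht⟩ : E)⟯) E L := IsScalarTower.of_algebraMap_eq fun _ => rfl
  have he : (algebraMap ↥(k⟮t⟯) L).comp (e : ↥(k⟮(⟨t, ht⟩ : E)⟯) →+* ↥(k⟮t⟯)) =
      ((RingEquiv.refl L : L ≃+* L) : L →+* L).comp (algebraMap ↥(k⟮(⟨t, ht⟩ : E)⟯) L) := by
    ext x
    rfl
  have h1 : Module.finrank ↥(k⟮(⟨t, ht⟩ : E)⟯) L = Module.finrank ↥(k⟮t⟯) L :=
    Algebra.finrank_eq_of_equiv_equiv e (RingEquiv.refl L) he
  have h2 : Algebra.IsSeparable ↥(k⟮(⟨t, ht⟩ : E)⟯) L :=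
    (Algebra.IsSeparable.iff_of_equiv_equiv e (RingEquiv.refl L) he).mpr hs
  have h3 : FiniteDimensional ↥(k⟮(⟨t, ht⟩ : E)⟯) L := FiniteDimensional.of_finrank_pos (by
    rw [h1]
    exact Module.finrank_pos)
  have h4 : FiniteDimensional ↥(k⟮(⟨t, ht⟩ : E)⟯) E := FiniteDimensional.left _ E L
  have h5 : FiniteDimensional E L := FiniteDimensional.right ↥(k⟮(⟨t, ht⟩ : E)⟯) E L
  have h6 : Module.finrank ↥(k⟮(⟨t, ht⟩ : E)⟯) E * Module.finrank E L =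
      Module.finrank ↥(k⟮(⟨t, ht⟩ : E)⟯) L := Module.finrank_mul_finrank ↥(k⟮(⟨t, ht⟩ : E)⟯) E L
  have h7 : Algebra.IsSeparable ↥(k⟮(⟨t, ht⟩ : E)⟯) E := by
    let f : E →ₐ[↥(k⟮(⟨t, ht⟩ : E)⟯)] L := { E.val.toRingHom with commutes' := fun _ => rfl }
    exact Algebra.IsSeparable.of_algHom _ L f
  have h8 : Module.finrank ↥(k⟮(⟨t, ht⟩ : E)⟯) E ≤ Module.finrank ↥(k⟮t⟯) L := by
    rw [← h1, ← h6]
    exact Nat.le_mul_of_pos_right _ Module.finrank_pos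
  have h9 : Transcendental k (⟨t, ht⟩ : E) := fun halg => htr (halg.algHom E.val)
  have h10 : IntermediateField.adjoin k {(⟨t, ht⟩ : E), ⟨z, hz⟩, ⟨w, hw⟩} = ⊤ := by
    apply lift_injective
    rw [lift_adjoin, lift_top]
    refine Eq.trans ?_ hE.symm
    congr 1
    ext x
    simp only [Set.mem_image, Set.mem_insert_iff, Set.mem_singleton_iff]
    constructor
    · rintro ⟨y, rfl | rfl | rfl, rfl⟩
      · exact Or.inl rfl
      · exact Or.inr (Or.inl rfl)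
      · exact Or.inr (Or.inr rfl)
    · rintro (rfl | rfl | rfl)
      · exact ⟨⟨x, ht⟩, Or.inl rfl, rfl⟩
      · exact ⟨⟨x, hz⟩, Or.inr (Or.inl rfl), rfl⟩
      · exact ⟨⟨x, hw⟩, Or.inr (Or.inr rfl), rfl⟩
  exact ⟨E, _, _, E.val, ⟨t, ht⟩, ⟨z, hz⟩, ⟨w, hw⟩, rfl, rfl, rfl, ⟨h9, h4, h7⟩, h8, h10⟩

end Pool.Agent.N368.WU
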